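import Pool.Agent.Helper44.HD.GoalsH

/-! Packet HD-IN -/

set_option autoImplicit false

open Finset

namespace Pool.Agent.Helper48.HD

open Pool.Agent.Helper44.HD

/-- the insertion of `g` -/
def sj {B : Type} [Mul B] (g g' : B) (j : ℕ) (x : ℕ → B) : ℕ → B := fun i =>
  if i = 0 then x 0 * g' else if i ≤ j then g * x i * g' else if i = j + 1 then g else x (i - 1)

section
variable {B : Type} [Ring B] (g g' : B)

theorem sj_zero (j : ℕ) (x : ℕ → B) : sj g g' j x 0 = x 0 * g' := by simp [sj]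

theorem sj_mid (j : ℕ) (x : ℕ → B) (i : ℕ) (h0 : i ≠ 0) (h : i ≤ j) :
    sj g g' j x i = g * x i * g' := by simp [sj, h0, h]

theorem sj_g (j : ℕ) (x : ℕ → B) : sj g g' j x (j + 1) = g := by simp [sj]

theorem sj_g' (j : ℕ) (x : ℕ → B) (i : ℕ) (h : i = j + 1) : sj g g' j x i = g := by
  subst h
  exact sj_g g g' j x

theorem sj_hi (j : ℕ) (x : ℕ → B) (i : ℕ) (h : j + 1 < i) : sj g g' j x i = x (i - 1) := by
  have h1 : i ≠ 0 := by omega
  have h2 : ¬ i ≤ j := by omega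
  have h3 : i ≠ j + 1 := by omega
  simp [sj, h1, h2, h3]

theorem ct_lt (j : ℕ) (x : ℕ → B) (i : ℕ) (h : i < j) : ct j x i = x i := by simp [ct, h]

theorem ct_eq (j : ℕ) (x : ℕ → B) : ct j x j = x j * x (j + 1) := by simp [ct]

theorem ct_gt (j : ℕ) (x : ℕ → B) (i : ℕ) (h : j < i) : ct j x i = x (i + 1) := by
  have h1 : ¬ i < j := by omega
  have h2 : i ≠ j := by omega
  simp [ct, h1, h2]

theorem cy_zero (m : ℕ) (x : ℕ → B) : cy m x 0 = x m * x 0 := by simp [cy]

theorem cy_pos (m : ℕ) (x : ℕ → B) (i : ℕ) (h : i ≠ 0) : cy m x i = x i := by simp [cy, h]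

theorem fa (h2 : g' * g = 1) (x : ℕ → B) : ct 0 (sj g g' 0 x) = x := by
  funext i
  rcases Nat.eq_zero_or_pos i with h | h
  · subst h
    rw [ct_eq, sj_zero, sj_g, mul_assoc, h2, mul_one]
  · rw [ct_gt _ _ _ h, sj_hi _ _ _ _ _ (by omega)]
    simp

theorem fb (n : ℕ) (x : ℕ → B) (i : ℕ) (hi : i ≤ n + 1) :
    cy (n + 2) (sj g g' (n + 1) x) i = g * x i * g' := by
  rcases Nat.eq_zero_or_pos i with h | h
  · subst h
    rw [cy_zero, sj_zero, sj_g, mul_assoc]
  · rw [cy_pos _ _ _ (by omega), sj_mid _ _ _ _ _ (by omega) hi]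

theorem fc (h2 : g' * g = 1) (j : ℕ) (x : ℕ → B) :
    ct (j + 1) (sj g g' (j + 1) x) = ct (j + 1) (sj g g' j x) := by
  funext i
  rcases lt_trichotomy i (j + 1) with h | h | h
  · rw [ct_lt _ _ _ h, ct_lt _ _ _ h]
    rcases Nat.eq_zero_or_pos i with h0 | h0
    · subst h0
      rw [sj_zero, sj_zero]
    · rw [sj_mid _ _ _ _ _ (by omega) (by omega), sj_mid _ _ _ _ _ (by omega) (by omega)]
  · subst h
    rw [ct_eq, ct_eq, sj_g, sj_mid _ _ _ _ _ (by omega) le_rfl, sj_g,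
      sj_hi _ _ _ _ _ (by omega : j + 1 < j + 1 + 1), mul_assoc, h2, mul_one]
    simp
  · rw [ct_gt _ _ _ h, ct_gt _ _ _ h, sj_hi _ _ _ _ _ (by omega), sj_hi _ _ _ _ _ (by omega)]

theorem fd (h2 : g' * g = 1) (i0 j : ℕ) (hij : i0 ≤ j) (x : ℕ → B) :
    ct i0 (sj g g' (j + 1) x) = sj g g' j (ct i0 x) := by
  funext l
  rcases lt_trichotomy l i0 with h | h | h
  · rw [ct_lt _ _ _ h]
    rcases Nat.eq_zero_or_pos l with h0 | h0
    · subst h0
      rw [sj_zero, sj_zero, ct_lt _ _ _ h]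
    · rw [sj_mid _ _ _ _ _ (by omega) (by omega), sj_mid _ _ _ _ _ (by omega) (by omega),
        ct_lt _ _ _ h]
  · subst h
    rw [ct_eq]
    rcases Nat.eq_zero_or_pos l with h0 | h0
    · subst h0
      rw [sj_zero, sj_zero, ct_eq, sj_mid _ _ _ _ _ (by omega) (by omega)]
      calc x 0 * g' * (g * x (0 + 1) * g') = x 0 * (g' * g) * x (0 + 1) * g' := by noncomm_ring
        _ = x 0 * x (0 + 1) * g' := by rw [h2, mul_one]
    · rw [sj_mid _ _ _ _ _ (by omega) (by omega), sj_mid _ _ _ _ _ (by omega) (by omega),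
        sj_mid _ _ _ _ _ (by omega) (by omega), ct_eq]
      calc g * x l * g' * (g * x (l + 1) * g') = g * x l * (g' * g) * x (l + 1) * g' := by
            noncomm_ring
        _ = g * (x l * x (l + 1)) * g' := by rw [h2, mul_one]; noncomm_ring
  · rw [ct_gt _ _ _ h]
    rcases lt_trichotomy l (j + 1) with h0 | h0 | h0
    · rw [sj_mid _ _ _ _ _ (by omega) (by omega), sj_mid _ _ _ _ _ (by omega) (by omega),
        ct_gt _ _ _ h]
    · rw [sj_g' _ _ _ _ _ (by omega), sj_g' _ _ _ _ _ (by omega)]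
    · rw [sj_hi _ _ _ _ _ (by omega), sj_hi _ _ _ _ _ (by omega), ct_gt _ _ _ (by omega)]
      congr 1
      omega

theorem fe (i0 j : ℕ) (hij : j < i0) (x : ℕ → B) :
    ct (i0 + 1) (sj g g' j x) = sj g g' j (ct i0 x) := by
  funext l
  rcases lt_trichotomy l (i0 + 1) with h | h | h
  · rw [ct_lt _ _ _ h]
    rcases lt_trichotomy l (j + 1) with h0 | h0 | h0
    · rcases Nat.eq_zero_or_pos l with h1 | h1
      · subst h1
        rw [sj_zero, sj_zero, ct_lt _ _ _ (by omega)]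
      · rw [sj_mid _ _ _ _ _ (by omega) (by omega), sj_mid _ _ _ _ _ (by omega) (by omega),
          ct_lt _ _ _ (by omega)]
    · rw [sj_g' _ _ _ _ _ (by omega), sj_g' _ _ _ _ _ (by omega)]
    · rw [sj_hi _ _ _ _ _ (by omega), sj_hi _ _ _ _ _ (by omega), ct_lt _ _ _ (by omega)]
  · subst h
    rw [ct_eq, sj_hi _ _ _ _ _ (by omega), sj_hi _ _ _ _ _ (by omega),
      sj_hi _ _ _ _ _ (by omega)]
    simp only [Nat.add_sub_cancel]
    rw [ct_eq]
  · rw [ct_gt _ _ _ h, sj_hi _ _ _ _ _ (by omega), sj_hi _ _ _ _ _ (by omega),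
      ct_gt _ _ _ (by omega)]
    congr 1
    omega

theorem ff (n j : ℕ) (hj : j ≤ n) (x : ℕ → B) :
    cy (n + 2) (sj g g' j x) = sj g g' j (cy (n + 1) x) := by
  funext l
  rcases Nat.eq_zero_or_pos l with h | h
  · subst h
    rw [cy_zero, sj_zero, sj_zero, cy_zero, sj_hi _ _ _ _ _ (by omega)]
    show x (n + 1) * (x 0 * g') = _
    rw [mul_assoc]
  · rw [cy_pos _ _ _ (by omega)]
    rcases lt_trichotomy l (j + 1) with h0 | h0 | h0
    · rw [sj_mid _ _ _ _ _ (by omega) (by omega), sj_mid _ _ _ _ _ (by omega) (by omega),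
        cy_pos _ _ _ (by omega)]
    · rw [sj_g' _ _ _ _ _ (by omega), sj_g' _ _ _ _ _ (by omega)]
    · rw [sj_hi _ _ _ _ _ (by omega), sj_hi _ _ _ _ _ (by omega), cy_pos _ _ _ (by omega)]

end

/-- the double sum -/
theorem dsum {k : Type} [Field k] (m : ℕ) (F A : ℕ → ℕ → k)
    (hc : ∀ j, j < m → F (j + 1) (j + 1) = F (j + 1) j)
    (hd : ∀ i j, i ≤ j → j < m → F i (j + 1) = A i j)
    (he : ∀ i j, j < i → i < m → F (i + 1) j = A i j) :
    ∑ j ∈ range (m + 1), (-1) ^ j * ∑ i ∈ range (m + 1), (-1) ^ i * F i j =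
      F 0 0 - ∑ i ∈ range m, (-1) ^ i * ∑ j ∈ range m, (-1) ^ j * A i j := by
  -- row j + 1
  have hrow : ∀ j, j < m → ∑ i ∈ range (j + 1), (-1) ^ i * F i (j + 1) =
      ∑ i ∈ range (j + 1), (-1) ^ i * A i j := by
    intro j hj
    refine sum_congr rfl fun i hi => ?_
    rw [hd i j (by simpa [Nat.lt_succ_iff] using hi) hj]
  have hsplit : ∀ j, j ≤ m → ∀ f : ℕ → k, ∑ i ∈ range (m + 1), f i =
      ∑ i ∈ range j, f i + f j + ∑ i ∈ Ico (j + 1) (m + 1), f i := by
    intro j hj f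
    rw [range_eq_Ico, ← sum_Ico_consecutive f (Nat.zero_le j) (by omega : j ≤ m + 1),
      sum_eq_sum_Ico_succ_bot (by omega : j < m + 1), range_eq_Ico]
    ring
  have htail : ∀ j, j < m → ∑ i ∈ Ico (j + 1) (m + 1), (-1) ^ i * F i j =
      (-1) ^ (j + 1) * F (j + 1) j - ∑ i ∈ Ico (j + 1) m, (-1) ^ i * A i j := by
    intro j hj
    rw [sum_eq_sum_Ico_succ_bot (by omega : j + 1 < m + 1), sub_eq_add_neg]
    congr 1
    rw [← sum_Ico_add' (fun i => (-1) ^ i * F i j) (j + 1) m 1, ← sum_neg_distrib]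
    refine sum_congr rfl fun i hi => ?_
    rw [mem_Ico] at hi
    rw [he i j (by omega) hi.2, pow_succ]
    ring
  have hA : ∀ j, j < m → ∑ i ∈ range m, (-1) ^ i * A i j =
      ∑ i ∈ range (j + 1), (-1) ^ i * A i j + ∑ i ∈ Ico (j + 1) m, (-1) ^ i * A i j := by
    intro j hj
    rw [range_eq_Ico, ← sum_Ico_consecutive _ (Nat.zero_le (j + 1)) (by omega : j + 1 ≤ m),
      range_eq_Ico]
  -- full row sums
  obtain ⟨T, hT⟩ : ∃ T : ℕ → k, T = fun j => ∑ i ∈ Ico (j + 1) (m + 1), (-1) ^ i * F i j := ⟨_, rfl⟩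
  have hR : ∀ j, j ≤ m → ∑ i ∈ range (m + 1), (-1) ^ i * F i j =
      ∑ i ∈ range j, (-1) ^ i * F i j + (-1) ^ j * F j j + T j := by
    intro j hj
    rw [hsplit j hj, hT]
  have hTm : T m = 0 := by rw [hT]; simp
  have hsq : ∀ j : ℕ, ((-1 : k) ^ j) * (-1) ^ j = 1 := by
    intro j
    rw [← mul_pow]
    simp
  have h1 : ∑ j ∈ range (m + 1), (-1) ^ j * ∑ i ∈ range (m + 1), (-1) ^ i * F i j =
      ∑ j ∈ range (m + 1), ((-1) ^ j * ∑ i ∈ range j, (-1) ^ i * F i j) +
        ∑ j ∈ range (m + 1), F j j + ∑ j ∈ range (m + 1), (-1) ^ j * T j := by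
    rw [← sum_add_distrib, ← sum_add_distrib]
    refine sum_congr rfl fun j hj => ?_
    rw [hR j (by simpa [Nat.lt_succ_iff] using hj), mul_add, mul_add, ← mul_assoc ((-1) ^ j) ((-1) ^ j),
      hsq, one_mul]
  rw [h1, sum_range_succ' (fun j => (-1) ^ j * ∑ i ∈ range j, (-1) ^ i * F i j),
    sum_range_succ' (fun j => F j j), sum_range_succ (fun j => (-1) ^ j * T j), hTm]
  simp only [range_zero, sum_empty, mul_zero, add_zero]
  have h2 : ∑ j ∈ range m, (-1) ^ (j + 1) * ∑ i ∈ range (j + 1), (-1) ^ i * F i (j + 1) =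
      ∑ j ∈ range m, (-((-1) ^ j * ∑ i ∈ range (j + 1), (-1) ^ i * A i j)) := by
    refine sum_congr rfl fun j hj => ?_
    rw [hrow j (mem_range.mp hj), pow_succ]
    ring
  have h3 : ∑ j ∈ range m, F (j + 1) (j + 1) = ∑ j ∈ range m, F (j + 1) j :=
    sum_congr rfl fun j hj => hc j (mem_range.mp hj)
  have h4 : ∑ j ∈ range m, (-1) ^ j * T j = ∑ j ∈ range m,
      (-F (j + 1) j - (-1) ^ j * ∑ i ∈ Ico (j + 1) m, (-1) ^ i * A i j) := by
    refine sum_congr rfl fun j hj => ?_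
    rw [hT]
    simp only
    rw [htail j (mem_range.mp hj), mul_sub, ← mul_assoc, pow_succ, ← mul_assoc, hsq]
    ring
  have h5 : ∑ i ∈ range m, (-1) ^ i * ∑ j ∈ range m, (-1) ^ j * A i j =
      ∑ j ∈ range m, (-1) ^ j * ∑ i ∈ range m, (-1) ^ i * A i j := by
    simp only [mul_sum]
    rw [sum_comm]
    refine sum_congr rfl fun j _ => sum_congr rfl fun i _ => ?_
    ring
  have h6 : ∑ j ∈ range m, (-1) ^ j * ∑ i ∈ range m, (-1) ^ i * A i j = ∑ j ∈ range m,
      ((-1) ^ j * ∑ i ∈ range (j + 1), (-1) ^ i * A i j +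
        (-1) ^ j * ∑ i ∈ Ico (j + 1) m, (-1) ^ i * A i j) := by
    refine sum_congr rfl fun j hj => ?_
    rw [hA j (mem_range.mp hj), mul_add]
  rw [h2, h3, h4, h5, h6]
  simp only [sum_add_distrib, sum_sub_distrib, sum_neg_distrib]
  ring

theorem coch_sj {k B : Type} [Field k] [Ring B] [Algebra k B] (g g' : B) (n j : ℕ) (hj : j ≤ n)
    (ψ : (ℕ → B) → k) (h : Coch k (n + 1) ψ) : Coch k n (fun x => ψ (sj g g' j x)) := by
  refine h.subst (sj g g' j) (fun i => if i ≤ j then i else i + 1) ?_ ?_ ?_ ?_ ?_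
  · intro i hi
    split_ifs <;> omega
  · intro x y e i hi
    rcases lt_trichotomy i (j + 1) with h0 | h0 | h0
    · rcases Nat.eq_zero_or_pos i with h1 | h1
      · subst h1
        rw [sj_zero, sj_zero, e 0 (by omega)]
      · rw [sj_mid _ _ _ _ _ (by omega) (by omega), sj_mid _ _ _ _ _ (by omega) (by omega),
          e i (by omega)]
    · rw [sj_g' _ _ _ _ _ h0, sj_g' _ _ _ _ _ h0]
    · rw [sj_hi _ _ _ _ _ h0, sj_hi _ _ _ _ _ h0, e (i - 1) (by omega)]
  · intro x l a b hl i hi hil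
    rcases lt_trichotomy i (j + 1) with h0 | h0 | h0
    · have hne : i ≠ l := by
        intro hcon
        subst hcon
        rw [if_pos (by omega)] at hil
        exact hil rfl
      rcases Nat.eq_zero_or_pos i with h1 | h1
      · subst h1
        rw [sj_zero, sj_zero, Function.update_of_ne hne, Function.update_of_ne hne]
      · rw [sj_mid _ _ _ _ _ (by omega) (by omega), sj_mid _ _ _ _ _ (by omega) (by omega),
          Function.update_of_ne hne, Function.update_of_ne hne]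
    · rw [sj_g' _ _ _ _ _ h0, sj_g' _ _ _ _ _ h0]
    · have hne : i - 1 ≠ l := by
        intro hcon
        subst hcon
        rw [if_neg (by omega)] at hil
        omega
      rw [sj_hi _ _ _ _ _ h0, sj_hi _ _ _ _ _ h0, Function.update_of_ne hne,
        Function.update_of_ne hne]
  · intro x l a b hl
    by_cases h0 : l ≤ j
    · rw [if_pos h0]
      rcases Nat.eq_zero_or_pos l with h1 | h1
      · subst h1
        rw [sj_zero, sj_zero, sj_zero]
        simp [add_mul]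
      · rw [sj_mid _ _ _ _ _ (by omega) h0, sj_mid _ _ _ _ _ (by omega) h0,
          sj_mid _ _ _ _ _ (by omega) h0]
        simp [add_mul, mul_add]
    · rw [if_neg h0, sj_hi _ _ _ _ _ (by omega), sj_hi _ _ _ _ _ (by omega),
        sj_hi _ _ _ _ _ (by omega)]
      simp
  · intro x l c a hl
    by_cases h0 : l ≤ j
    · rw [if_pos h0]
      rcases Nat.eq_zero_or_pos l with h1 | h1
      · subst h1
        rw [sj_zero, sj_zero]
        simp
      · rw [sj_mid _ _ _ _ _ (by omega) h0, sj_mid _ _ _ _ _ (by omega) h0]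
        simp
    · rw [if_neg h0, sj_hi _ _ _ _ _ (by omega), sj_hi _ _ _ _ _ (by omega)]
      simp

theorem in_ : StmtIN := by
  intro k B _ _ _ g g' h1 h2 n ψ hψ
  obtain ⟨hψ1, hψ2⟩ := hψ
  have hid : ∀ x : ℕ → B, dl n (fun x => ∑ j ∈ range (n + 1), (-1) ^ j * ψ (sj g g' j x)) x +
      ∑ j ∈ range (n + 2), (-1) ^ j * dl (n + 1) ψ (sj g g' j x) =
      ψ x - ψ (fun i => g * x i * g') := by
    intro x
    have hD := dsum (n + 1) (fun i j => ψ (ct i (sj g g' j x))) (fun i j => ψ (sj g g' j (ct i x)))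
      (fun j _ => by rw [fc g g' h2]) (fun i j hij _ => by rw [fd g g' h2 i j hij])
      (fun i j hij _ => by rw [fe g g' i j hij])
    have hsum : ∑ j ∈ range (n + 2), (-1) ^ j * dl (n + 1) ψ (sj g g' j x) =
        ∑ j ∈ range (n + 2), (-1) ^ j * (∑ i ∈ range (n + 2), (-1) ^ i * ψ (ct i (sj g g' j x))) +
          ∑ j ∈ range (n + 2), (-1) ^ j * ((-1) ^ (n + 2) * ψ (cy (n + 2) (sj g g' j x))) := by
      rw [← sum_add_distrib]
      refine sum_congr rfl fun j _ => ?_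
      rw [dl, mul_add]
    have hcyc : ∑ j ∈ range (n + 2), (-1) ^ j * ((-1) ^ (n + 2) * ψ (cy (n + 2) (sj g g' j x))) =
        ∑ j ∈ range (n + 1), (-1) ^ j * ((-1) ^ (n + 2) * ψ (sj g g' j (cy (n + 1) x))) -
          ψ (fun i => g * x i * g') := by
      rw [sum_range_succ, sub_eq_add_neg]
      congr 1
      · refine sum_congr rfl fun j hj => ?_
        rw [ff g g' n j (by simpa [Nat.lt_succ_iff] using hj)]
      · rw [hψ1.dep _ _ (fb g g' n x), ← mul_assoc, ← pow_add]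
        have : (-1 : k) ^ (n + 1 + (n + 2)) = -1 := by
          rw [show n + 1 + (n + 2) = 2 * (n + 1) + 1 by ring, pow_succ, pow_mul]
          simp
        rw [this]
        ring
    have hL : dl n (fun x => ∑ j ∈ range (n + 1), (-1) ^ j * ψ (sj g g' j x)) x =
        ∑ i ∈ range (n + 1), (-1) ^ i * (∑ j ∈ range (n + 1), (-1) ^ j * ψ (sj g g' j (ct i x))) +
          (-1) ^ (n + 1) * ∑ j ∈ range (n + 1), (-1) ^ j * ψ (sj g g' j (cy (n + 1) x)) := rfl
    have hcancel : (-1 : k) ^ (n + 1) * ∑ j ∈ range (n + 1), (-1) ^ j * ψ (sj g g' j (cy (n + 1) x)) +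
        ∑ j ∈ range (n + 1), (-1) ^ j * ((-1) ^ (n + 2) * ψ (sj g g' j (cy (n + 1) x))) = 0 := by
      rw [mul_sum, ← sum_add_distrib]
      refine sum_eq_zero fun j _ => ?_
      rw [pow_succ (-1 : k) (n + 1)]
      ring
    rw [hL, hsum, hcyc]
    have hD' : ∑ j ∈ range (n + 2), (-1) ^ j *
        (∑ i ∈ range (n + 2), (-1) ^ i * ψ (ct i (sj g g' j x))) =
        ψ (ct 0 (sj g g' 0 x)) - ∑ i ∈ range (n + 1), (-1) ^ i *
          (∑ j ∈ range (n + 1), (-1) ^ j * ψ (sj g g' j (ct i x))) := hD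
    rw [hD', fa g g' h2]
    linear_combination hcancel
  refine ⟨fun x => -∑ j ∈ range (n + 1), (-1) ^ j * ψ (sj g g' j x), ?_, ?_⟩
  · apply Coch.negc
    apply Coch.sumc
    intro j hj
    exact (coch_sj g g' n j (by simpa [Nat.lt_succ_iff] using hj) ψ hψ1).mulc _
  · intro x
    rw [dl_neg]
    have := hid x
    have h0 : ∑ j ∈ range (n + 2), (-1) ^ j * dl (n + 1) ψ (sj g g' j x) = 0 := by
      refine sum_eq_zero fun j _ => ?_
      rw [hψ2, mul_zero]
    rw [h0, add_zero] at this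
    rw [this]
    ring

end Pool.Agent.Helper48.HD
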