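import Pool.Agent.Helper44.HD.GoalsQ

/-! Packet HD-QB -/

set_option autoImplicit false
set_option linter.unusedSectionVars false

open Finset
open scoped TensorProduct

namespace Pool.Agent.Helper48.HD

open Pool.Agent.Helper44.HD

section
variable {k G R : Type} [Field k] [Group G] [Ring R] [Algebra k R]
  [MulSemiringAction G R] [SMulCommClass G k R]

/-- `T_{g,h} F = (x ↦ g • F (g⁻¹ x h))` -/
def TT (k : Type) {G R : Type} [Field k] [Group G] [Ring R] [Algebra k R]
    [MulSemiringAction G R] [SMulCommClass G k R] (p : G × G) : BF G R →ₗ[k] BF G R where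
  toFun F := fun x => p.1 • F (p.1⁻¹ * x * p.2)
  map_add' F F' := funext fun _ => smul_add p.1 (F _) (F' _)
  map_smul' c F := funext fun _ => smul_comm p.1 c (F _)

theorem TT_apply (p : G × G) (F : BF G R) (x : G) :
    TT k p F x = p.1 • F (p.1⁻¹ * x * p.2) := rfl

theorem TT_one : TT k (1 : G × G) = (1 : Module.End k (BF G R)) := by
  apply LinearMap.ext
  intro F
  funext x
  rw [TT_apply]
  simp

theorem TT_mul (p q : G × G) : TT k (p * q) = (TT k p : Module.End k (BF G R)) * TT k q := by
  apply LinearMap.ext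
  intro F
  funext x
  rw [TT_apply, Module.End.mul_apply, TT_apply, TT_apply, smul_smul]
  simp only [Prod.fst_mul, Prod.snd_mul, mul_inv_rev]
  congr 2
  group

theorem TT_semi (p : G × G) (γ : Gam k R) (F : BF G R) :
    TT k p (γ • F) = gm k R p γ • TT k p F := by
  induction γ using TensorProduct.induction_on with
  | zero =>
    rw [map_zero]
    have h0 : ∀ F : BF G R, (0 : Gam k R) • F = 0 := fun F => gzero_smul F
    rw [h0, h0, map_zero]
  | tmul r s =>
    obtain ⟨s, rfl⟩ := MulOpposite.op_surjective s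
    rw [gm_tmul]
    funext x
    rw [TT_apply, bf_smul, bf_smul, TT_apply, smul_mul', smul_mul', smul_smul, smul_smul]
    congr 2
    group
  | add a b ha hb =>
    rw [map_add, add_smul (a : Gam k R), add_smul, map_add, ha, hb]

variable {D : RedGroup k G} {v : Type} [Fintype v] [DecidableEq v] (V : MRep D v)

theorem TT_cf (p : G × G) (i j : v) :
    TT k p (cf R V i j) = ∑ a, ∑ b, (V.m p.1⁻¹ i a * V.m p.2 b j) • cf R V a b := by
  funext x
  rw [TT_apply]
  have h1 : (∑ a, ∑ b, (V.m p.1⁻¹ i a * V.m p.2 b j) • cf R V a b) x =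
      ∑ a, ∑ b, algebraMap k R ((V.m p.1⁻¹ i a * V.m p.2 b j) * V.m x a b) := by
    have : ∀ (s : Finset v) (f : v → BF G R), (∑ a ∈ s, f a) x = ∑ a ∈ s, f a x := by
      intro s f
      exact Finset.sum_apply x s f
    rw [this]
    refine sum_congr rfl fun a _ => ?_
    rw [this]
    refine sum_congr rfl fun b _ => ?_
    show (V.m p.1⁻¹ i a * V.m p.2 b j) • algebraMap k R (V.m x a b) = _
    rw [Algebra.smul_def, ← map_mul]
  rw [h1]
  show p.1 • algebraMap k R (V.m (p.1⁻¹ * x * p.2) i j) = _
  rw [Algebra.algebraMap_eq_smul_one, smul_comm, smul_one, ← Algebra.algebraMap_eq_smul_one]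
  simp only [← map_sum]
  congr 1
  rw [V.mul, V.mul, Matrix.mul_apply]
  simp only [Matrix.mul_apply, sum_mul]
  rw [sum_comm]
  refine sum_congr rfl fun a _ => sum_congr rfl fun b _ => ?_
  ring

theorem cf_mem (i j : v) : cf R V i j ∈ BV R V := Submodule.subset_span ⟨i, j, rfl⟩

theorem smulk_mem (c : k) {F : BF G R} (hF : F ∈ BV R V) : c • F ∈ BV R V :=
  (BV R V).smul_of_tower_mem c hF

theorem TT_mem (p : G × G) {F : BF G R} (hF : F ∈ BV R V) : TT k p F ∈ BV R V := by
  unfold BV at hF
  induction hF using Submodule.span_induction with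
  | mem x hx =>
    obtain ⟨i, j, rfl⟩ := hx
    rw [TT_cf]
    refine Submodule.sum_mem _ fun a _ => Submodule.sum_mem _ fun b _ => ?_
    exact smulk_mem V _ (cf_mem V a b)
  | zero =>
    rw [map_zero]
    exact Submodule.zero_mem _
  | add x y _ _ hx hy =>
    rw [map_add]
    exact Submodule.add_mem _ hx hy
  | smul a x _ hx =>
    rw [TT_semi]
    exact Submodule.smul_mem _ _ hx

/-! rationality -/

theorem O2_mem {f f' : G → k} (hf : f ∈ D.O) (hf' : f' ∈ D.O) :
    (fun p : G × G => f p.1 * f' p.2) ∈ D.pr.O :=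
  show _ ∈ D.O2 from Submodule.subset_span ⟨f, hf, f', hf', rfl⟩

theorem RF_fst {M : Type} [AddCommGroup M] [Module k M] {F : G → M} (hF : F ∈ D.RF M) :
    (fun p : G × G => F p.1) ∈ D.pr.RF M := by
  refine RF_ind D (p := fun F => (fun p : G × G => F p.1) ∈ D.pr.RF M) ?_ ?_ ?_ hF
  · intro f hf m
    have h := O2_mem hf D.O.one_mem
    have e : (fun p : G × G => f p.1 * (1 : G → k) p.2) = fun p => f p.1 := by
      funext p
      simp
    rw [e] at h
    exact RF_mk D.pr h m
  · exact (D.pr.RF M).zero_mem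
  · intro F F' h h'
    exact (D.pr.RF M).add_mem h h'

theorem RF_snd {M : Type} [AddCommGroup M] [Module k M] {F : G → M} (hF : F ∈ D.RF M) :
    (fun p : G × G => F p.2) ∈ D.pr.RF M := by
  refine RF_ind D (p := fun F => (fun p : G × G => F p.2) ∈ D.pr.RF M) ?_ ?_ ?_ hF
  · intro f hf m
    have h := O2_mem (D := D) D.O.one_mem hf
    have e : (fun p : G × G => (1 : G → k) p.1 * f p.2) = fun p => f p.2 := by
      funext p
      simp
    rw [e] at h
    exact RF_mk D.pr h m
  · exact (D.pr.RF M).zero_mem
  · intro F F' h h'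
    exact (D.pr.RF M).add_mem h h'

theorem gm_rat (hR : RatR D R) (γ : Gam k R) :
    (fun p : G × G => gm k R p γ) ∈ D.pr.RF (Gam k R) := by
  induction γ using TensorProduct.induction_on with
  | zero =>
    simp only [map_zero]
    exact (D.pr.RF _).zero_mem
  | tmul r s =>
    obtain ⟨s, rfl⟩ := MulOpposite.op_surjective s
    simp only [gm_tmul]
    have h1 : (fun p : G × G => p.1 • r) ∈ D.pr.RF R := RF_fst (hR r)
    have h2 : (fun p : G × G => p.2 • s) ∈ D.pr.RF R := RF_snd (hR s)
    have h3 : (fun p : G × G => MulOpposite.op (p.2 • s)) ∈ D.pr.RF Rᵐᵒᵖ :=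
      RF_map D.pr (MulOpposite.opLinearEquiv k : R ≃ₗ[k] Rᵐᵒᵖ).toLinearMap h2
    exact RF_bil D.pr (TensorProduct.mk k R Rᵐᵒᵖ) h1 h3
  | add a b ha hb =>
    simp only [map_add]
    exact RF_add D.pr ha hb

theorem TT_rat (hR : RatR D R) {F : BF G R} (hF : F ∈ BV R V) :
    (fun p : G × G => TT k p F) ∈ D.pr.RF (BF G R) := by
  unfold BV at hF
  induction hF using Submodule.span_induction with
  | mem x hx =>
    obtain ⟨i, j, rfl⟩ := hx
    simp only [TT_cf]
    refine RF_sum D.pr _ fun a _ => RF_sum D.pr _ fun b _ => ?_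
    exact RF_mk D.pr (O2_mem (D.inv_mem _ (V.rat i a)) (V.rat b j)) _
  | zero =>
    simp only [map_zero]
    exact (D.pr.RF _).zero_mem
  | add x y _ _ hx hy =>
    simp only [map_add]
    exact RF_add D.pr hx hy
  | smul a x _ hx =>
    simp only [TT_semi]
    exact RF_bil D.pr (bfg k G R).toLinearMap (gm_rat hR a) hx

end

theorem qb : StmtQB := by
  intro k G R v _ _ _ _ _ _ D _ _ V hR
  refine ⟨?_, ?_⟩
  · show Module.Finite (Gam k R) (BV R V)
    unfold BV
    apply Module.Finite.span_of_finite
    have h : {F : BF G R | ∃ i j, F = cf R V i j} = Set.range (fun q : v × v => cf R V q.1 q.2) := by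
      ext F
      constructor
      · rintro ⟨i, j, rfl⟩
        exact ⟨(i, j), rfl⟩
      · rintro ⟨q, rfl⟩
        exact ⟨q.1, q.2, rfl⟩
    rw [h]
    exact Set.finite_range _
  · obtain ⟨ρ, hρ⟩ : ∃ ρ : Representation k (G × G) (BM R V),
        ∀ (p : G × G) (F : BM R V), (ρ p F).fn = TT k p F.fn := by
      refine ⟨{ toFun := fun p =>
                  { toFun := fun F => (⟨TT k p F.fn, TT_mem V p F.mem⟩ : BV R V)
                    map_add' := fun F F' => BM.ext (map_add (TT k p) F.fn F'.fn)
                    map_smul' := fun c F => BM.ext (map_smul (TT k p) c F.fn) }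
                map_one' := LinearMap.ext fun F => BM.ext (by
                  show TT k (1 : G × G) F.fn = F.fn
                  rw [TT_one]
                  rfl)
                map_mul' := fun p q => LinearMap.ext fun F => BM.ext (by
                  show TT k (p * q) F.fn = TT k p (TT k q F.fn)
                  rw [TT_mul]
                  rfl) }, fun p F => rfl⟩
    refine ⟨⟨ρ, ?_, ?_⟩, ?_⟩
    · intro p c m
      apply BM.ext
      rw [hρ, BM.smul_fn, BM.smul_fn, hρ, TT_semi]
    · intro m
      have h1 := TT_rat V hR m.mem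
      have h2 := RF_sub D.pr ((BV R V).restrictScalars k) h1 (fun p => TT_mem V p m.mem)
      have h3 := RF_map D.pr
        (M' := BM R V) { toFun := fun F => (⟨F.1, F.2⟩ : BV R V)
                         map_add' := fun F F' => rfl
                         map_smul' := fun c F => rfl } h2
      have e : (fun p => ρ p m) = fun p : G × G => ((⟨TT k p m.fn, TT_mem V p m.mem⟩ : BV R V) : BM R V) := by
        funext p
        exact BM.ext (hρ p m)
      rw [e]
      exact h3
    · intro g h F x
      show (ρ (g, h) F).fn x = _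
      rw [hρ]
      rfl

end Pool.Agent.Helper48.HD
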